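import Mathlib

/-!
# Project TG: a valuation at infinity of the algebraic closure (helper781)
-/

set_option autoImplicit false
set_option linter.all false

open Polynomial
open scoped Classical

namespace Run7.h781.TG

/-- A valuation subring with `1 / X` in the maximal ideal. -/
theorem exists_vs {κ W : Type} [Field κ] [Field W] (ι : κ[X] →+* W) (hι : Function.Injective ι) :
    ∃ O : ValuationSubring W, (∀ c : κ, ι (C c) ∈ O) ∧ O.valuation (ι X)⁻¹ < 1 := by
  have hX : ι X ≠ 0 := by
    rw [Ne, map_eq_zero_iff _ hι]; exact X_ne_zero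
  letI : Invertible (ι X) := invertibleOfNonzero hX
  let e : κ[X] →+* W := eval₂RingHom (ι.comp C) (ι X)⁻¹
  have he : Function.Injective e := by
    rw [injective_iff_map_eq_zero]
    intro q hq
    have h1 : eval₂ (ι.comp C) (⅟(ι X)) (reflect q.natDegree (reflect q.natDegree q)) = 0 := by
      have : reflect q.natDegree (reflect q.natDegree q) = q := by
        ext i; rw [coeff_reflect, coeff_reflect, revAt_invol]
      rw [this, invOf_eq_inv]
      exact hq
    rw [eval₂_reflect_eq_zero_iff _ _ _ _ (by
      rw [natDegree_le_iff_coeff_eq_zero]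
      intro i hi
      rw [coeff_reflect, revAt_eq_self_of_lt hi]
      exact coeff_eq_zero_of_natDegree_lt hi)] at h1
    have h2 : eval₂ (ι.comp C) (ι X) (reflect q.natDegree q) = ι (reflect q.natDegree q) := by
      have : (eval₂RingHom (ι.comp C) (ι X)) = ι := by
        ext x
        · simp
        · simp
      rw [← coe_eval₂RingHom, this]
    rw [h2, map_eq_zero_iff _ hι] at h1
    have h3 := congrArg (reflect q.natDegree) h1
    rwa [reflect_zero, show reflect q.natDegree (reflect q.natDegree q) = q by
        ext i; rw [coeff_reflect, coeff_reflect, revAt_invol]] at h3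
  let I : Ideal κ[X] := Ideal.span {X}
  haveI hI : I.IsPrime := by
    rw [Ideal.span_singleton_prime X_ne_zero]; exact prime_X
  let L := Localization.AtPrime I
  have hu : ∀ y : I.primeCompl, IsUnit (e y) := by
    rintro ⟨y, hy⟩
    rw [isUnit_iff_ne_zero, Ne, map_eq_zero_iff _ he]
    rintro rfl
    exact hy I.zero_mem
  let f : L →+* W := IsLocalization.lift hu
  have hf : ∀ q : κ[X], f (algebraMap κ[X] L q) = e q := fun q => IsLocalization.lift_eq hu q
  obtain ⟨O, hO, hloc⟩ := IsLocalRing.exists_factor_valuationRing f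
  refine ⟨O, fun c => ?_, ?_⟩
  · have h1 := hO (algebraMap κ[X] L (C c))
    rw [hf] at h1
    simpa [e] using h1
  · have h1 := hO (algebraMap κ[X] L X)
    have h2 : ¬ IsUnit (algebraMap κ[X] L X) := by
      rw [IsLocalization.AtPrime.isUnit_to_map_iff L I]
      intro h
      exact h (Ideal.mem_span_singleton_self X)
    have h3 : ¬ IsUnit (f.codRestrict O.toSubring hO (algebraMap κ[X] L X)) := fun h =>
      h2 (isUnit_of_map_unit (f.codRestrict O.toSubring hO) _ h)
    have h4 : f (algebraMap κ[X] L X) = (ι X)⁻¹ := by rw [hf]; simp [e]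
    have h5 : O.valuation ((f.codRestrict O.toSubring hO (algebraMap κ[X] L X) : O) : W) < 1 :=
      (O.valuation_lt_one_iff _).1 h3
    have h6 : ((f.codRestrict O.toSubring hO (algebraMap κ[X] L X) : O) : W) = (ι X)⁻¹ := h4
    rwa [h6] at h5

theorem prod_scale {W : Type} [Field W] {n : ℕ} (a : Fin n → W) (S : W) :
    (∏ i, (X - C (a i))).scaleRoots S = ∏ i, (X - C (S * a i)) := by
  have : ∀ s : Finset (Fin n), (∏ i ∈ s, (X - C (a i))).scaleRoots S =
      ∏ i ∈ s, (X - C (S * a i)) := by
    intro s
    induction s using Finset.induction_on with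
    | empty => simp
    | insert x t hx ih =>
      rw [Finset.prod_insert hx, Finset.prod_insert hx, mul_scaleRoots_of_noZeroDivisors, ih,
        X_sub_C_scaleRoots, mul_comm (a x) S]
  exact this _

/-- The zeros of a polynomial with separable reduction at infinity. -/
theorem diff_val {k κ W : Type} [Field k] [Field κ] [Field W] [Algebra k κ] (ι : κ[X] →+* W)
    (hι : Function.Injective ι) (O : ValuationSubring W) (hc : ∀ c : κ, ι (C c) ∈ O)
    (hX : O.valuation (ι X)⁻¹ < 1) (n M : ℕ) (hM : 1 ≤ M) (f : k[X][X]) (hfm : f.Monic)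
    (hfd : f.natDegree = n) (hfc : ∀ j < n, (f.coeff j).natDegree ≤ M * (n - j)) (r : k[X])
    (hrm : r.Monic) (hrd : r.natDegree = n) (hrs : r.Separable)
    (hfr : ∀ j < n, (f.coeff j).coeff (M * (n - j)) = r.coeff j) (a : Fin n → W)
    (ha : f.map (ι.comp (mapRingHom (algebraMap k κ))) = ∏ i, (X - C (a i))) (i j : Fin n)
    (hij : i ≠ j) : 1 < O.valuation (a i - a j) := by
  have hX0 : ι X ≠ 0 := by
    rw [Ne, map_eq_zero_iff _ hι]; exact X_ne_zero
  letI : Invertible (ι X) := invertibleOfNonzero hX0
  have hT : (ι X)⁻¹ ∈ O := (O.valuation_le_one_iff _).1 hX.le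
  -- evaluation at `1 / X`
  let cO : κ →+* O := (ι.comp C).codRestrict O.toSubring hc
  let e : κ[X] →+* O := eval₂RingHom cO (⟨(ι X)⁻¹, hT⟩ : O)
  have he : ∀ p : κ[X], ((e p : O) : W) = eval₂ (ι.comp C) (ι X)⁻¹ p := by
    intro p
    change O.subtype (eval₂ cO _ p) = _
    rw [hom_eval₂]
    rfl
  let ρ := IsLocalRing.residue O
  have hρ : ∀ p : κ[X], ρ (e p) = ρ (cO (p.coeff 0)) := by
    intro p
    have h1 : ρ (e X) = 0 := by
      rw [IsLocalRing.residue_eq_zero_iff, O.valuation_lt_one_iff]
      have : ((e X : O) : W) = (ι X)⁻¹ := by rw [he]; simp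
      rwa [this]
    have h2 : (ρ.comp e) = (ρ.comp cO).comp (constantCoeff) := by
      ext x
      · simp [e]
      · simpa using h1
    have := congrArg (fun g => g p) h2
    simpa using this
  -- the scaled polynomial
  let fκ : κ[X][X] := f.map (mapRingHom (algebraMap k κ))
  let PK : κ[X][X] := ∑ j ∈ Finset.range (n + 1), C (reflect (M * (n - j)) (fκ.coeff j)) * X ^ j
  have hPKc : ∀ j ≤ n, PK.coeff j = reflect (M * (n - j)) (fκ.coeff j) := by
    intro j hj
    rw [finset_sum_coeff, Finset.sum_eq_single j]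
    · simp
    · intro b _ hb
      rw [coeff_C_mul_X_pow, if_neg hb.symm]
    · intro h
      exact absurd (Finset.mem_range.2 (by omega)) h
  have hPKc' : ∀ j, n < j → PK.coeff j = 0 := by
    intro j hj
    rw [finset_sum_coeff, Finset.sum_eq_zero]
    intro b hb
    rw [Finset.mem_range] at hb
    rw [coeff_C_mul_X_pow, if_neg (by omega)]
  have hfκn : fκ.coeff n = 1 := by
    rw [coeff_map, ← hfd, hfm.coeff_natDegree, map_one]
  have hlead : PK.coeff n = 1 := by
    rw [hPKc n le_rfl, hfκn, Nat.sub_self, mul_zero]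
    ext i
    rw [coeff_reflect]
    rcases Nat.eq_zero_or_pos i with rfl | hi
    · simp
    · rw [revAt_eq_self_of_lt hi]
  have hPKm : PK.Monic := by
    refine monic_of_natDegree_le_of_coeff_eq_one n ?_ hlead
    rw [natDegree_le_iff_coeff_eq_zero]
    intro j hj
    exact hPKc' j hj
  have hfκd : ∀ j ≤ n, (fκ.coeff j).natDegree ≤ M * (n - j) := by
    intro j hj
    rcases hj.lt_or_eq with h | h
    · rw [coeff_map]
      exact natDegree_map_le.trans (hfc j h)
    · rw [h, hfκn]; simp
  set S : W := (ι X)⁻¹ ^ M with hS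
  have hιe : ∀ p : κ[X], eval₂ (ι.comp C) (ι X) p = ι p := by
    intro p
    have : (eval₂RingHom (ι.comp C) (ι X)) = ι := by
      ext x
      · simp
      · simp
    rw [← coe_eval₂RingHom, this]
  have hPO : (PK.map e).map O.subtype = ∏ i, (X - C (S * a i)) := by
    rw [← prod_scale, ← ha]
    have hnd : (f.map (ι.comp (mapRingHom (algebraMap k κ)))).natDegree = n := by
      rw [hfm.natDegree_map, hfd]
    ext j
    rw [coeff_map, coeff_map, coeff_scaleRoots, hnd]
    change ((e (PK.coeff j) : O) : W) = _
    rw [he]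
    rcases le_or_gt j n with hj | hj
    · rw [hPKc j hj]
      have h1 := eval₂_reflect_mul_pow (ι.comp C) (ι X) (M * (n - j)) (fκ.coeff j) (hfκd j hj)
      rw [hιe, invOf_eq_inv] at h1
      have h2 : (f.map (ι.comp (mapRingHom (algebraMap k κ)))).coeff j = ι (fκ.coeff j) := by
        rw [coeff_map, coeff_map]; rfl
      rw [h2, ← h1, hS, ← pow_mul, inv_pow, mul_assoc, mul_inv_cancel₀ (pow_ne_zero _ hX0),
        mul_one]
    · rw [hPKc' j hj, eval₂_zero, coeff_map, coeff_eq_zero_of_natDegree_lt (by rw [hfd]; exact hj),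
        map_zero, zero_mul]
  -- the zeros are integral
  have hy : ∀ i, ∃ y : O, (y : W) = S * a i := by
    intro i
    have h1 : IsIntegral O (S * a i) := by
      refine ⟨PK.map e, hPKm.map _, ?_⟩
      have h2 : eval (S * a i) ((PK.map e).map O.subtype) = 0 := by
        rw [hPO, eval_prod, Finset.prod_eq_zero (Finset.mem_univ i)]
        simp
      rw [eval_map] at h2
      exact h2
    obtain ⟨y, hy⟩ := IsIntegrallyClosed.isIntegral_iff.1 h1
    exact ⟨y, hy⟩
  choose y hy using hy
  have hPO2 : PK.map e = ∏ i, (X - C (y i)) := by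
    apply Polynomial.map_injective O.subtype Subtype.val_injective
    rw [hPO, Polynomial.map_prod]
    refine Finset.prod_congr rfl fun i _ => ?_
    rw [Polynomial.map_sub, map_X, map_C]
    congr 2
    exact (hy i).symm
  -- the reduction
  have hred : (PK.map e).map ρ = r.map ((ρ.comp cO).comp (algebraMap k κ)) := by
    ext j
    rw [coeff_map, coeff_map, hρ, coeff_map]
    change _ = ρ (cO (algebraMap k κ (r.coeff j)))
    congr 2
    rcases lt_trichotomy j n with hj | hj | hj
    · rw [hPKc j hj.le, coeff_reflect, revAt_zero, coeff_map, coe_mapRingHom, coeff_map, hfr j hj]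
    · rw [hj, hlead, ← hrd, hrm.coeff_natDegree, map_one, coeff_one_zero]
    · rw [hPKc' j hj, coeff_zero, coeff_eq_zero_of_natDegree_lt (by rw [hrd]; exact hj), map_zero]
  have hsep : (∏ i, (X - C (ρ (y i)))).Separable := by
    have h1 : (PK.map e).map ρ = ∏ i, (X - C (ρ (y i))) := by
      rw [hPO2, Polynomial.map_prod]
      refine Finset.prod_congr rfl fun i _ => ?_
      rw [Polynomial.map_sub, map_X, map_C]
    rw [← h1, hred]
    exact hrs.map
  have hinj := separable_prod_X_sub_C_iff.1 hsep
  have hne : ρ (y i - y j) ≠ 0 := by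
    rw [map_sub, sub_ne_zero]
    intro h
    exact hij (hinj h)
  have hunit : IsUnit (y i - y j) := by
    rw [Ne, IsLocalRing.residue_eq_zero_iff, IsLocalRing.mem_maximalIdeal, mem_nonunits_iff,
      not_not] at hne
    exact hne
  have hv := (O.valuation_eq_one_iff _).1 hunit
  have h1 : ((y i - y j : O) : W) = S * (a i - a j) := by
    push_cast
    rw [hy, hy]; ring
  rw [h1, map_mul] at hv
  have h2 : O.valuation S < 1 := by
    rw [hS, map_pow]
    exact pow_lt_one₀ zero_le' hX (by omega)
  by_contra h3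
  rw [not_lt] at h3
  have h4 : O.valuation S * O.valuation (a i - a j) < 1 := by
    calc O.valuation S * O.valuation (a i - a j) ≤ O.valuation S * 1 := mul_le_mul' le_rfl h3
      _ < 1 := by rwa [mul_one]
  exact absurd hv h4.ne

end Run7.h781.TG
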