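import Pool.Agent.Run7.h781.TG.Mid
import Pool.Agent.Run7.h781.TG.Val
import Pool.Agent.Run7.h784.TG.Stm

/-!
# Project TG: the geometric Galois group of the family is the symmetric group (helper781)
-/

set_option autoImplicit false
set_option linter.all false

open Polynomial
open scoped Classical

namespace Run7.h781.TG

open Run7.h784.TG
open Pool.Agent.N352.PJ (dsc Fam GoodR Ht)

/-- The zeros of a monic polynomial over an algebraically closed field. -/
theorem exists_roots {W : Type} [Field W] [IsAlgClosed W] (p : W[X]) (hp : p.Monic) (n : ℕ)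
    (hn : p.natDegree = n) : ∃ a : Fin n → W, p = ∏ i, (X - C (a i)) := by
  subst hn
  have h := (IsAlgClosed.splits p).eq_prod_roots
  rw [hp.leadingCoeff, C_1, one_mul] at h
  have hc := (IsAlgClosed.splits p).natDegree_eq_card_roots
  have hl : p.roots.toList.length = p.natDegree := by rw [Multiset.length_toList, hc]
  refine ⟨fun i => p.roots.toList.get (i.cast hl.symm), ?_⟩
  have e1 : (p.roots.map fun c => X - C c).prod = (p.roots.toList.map fun c => X - C c).prod := by
    rw [← Multiset.prod_coe, ← Multiset.map_coe, Multiset.coe_toList]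
  have key : ∀ (l : List W) (m : ℕ) (hm : l.length = m),
      (l.map fun c => X - C c).prod = ∏ i : Fin m, (X - C (l.get (i.cast hm.symm))) := by
    intro l m hm
    subst hm
    conv_lhs => rw [← List.ofFn_get l, List.map_ofFn, List.prod_ofFn]
    rfl
  exact h.trans (e1.trans (key _ _ hl))

theorem T_FULL : P_FULL := by
  intro k _ _ g N r f hF k' _ _ _ _ K' W _ _ _ _ _ _ σ
  haveI : IsAlgClosed W := IsAlgClosure.isAlgClosed K'
  haveI : Normal K' W := inferInstance
  have hfm := hF.fam.ht.mon
  have hfd := hF.fam.ht.deg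
  have hN := hF.n1
  -- the embedding of `k'[X]`
  let ι : k'[X] →+* W := (algebraMap K' W).comp (algebraMap k'[X] K')
  have hι : Function.Injective ι := (algebraMap K' W).injective.comp (IsFractionRing.injective k'[X] K')
  let e : k[X] →+* k'[X] := mapRingHom (algebraMap k k')
  have hbig : big k k' K' W = ι.comp e := rfl
  have hbigi : Function.Injective (big k k' K' W) := by
    rw [hbig]
    exact hι.comp (Polynomial.map_injective _ (algebraMap k k').injective)
  -- the zeros
  obtain ⟨a, ha⟩ := exists_roots (f.map (big k k' K' W)) (hfm.map _) (2 * g + 1)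
    (by rw [hfm.natDegree_map, hfd])
  -- the discriminant
  have hd1 : big k k' K' W (dsc g f) = ∏ i, ∏ j ∈ Finset.univ.erase i, (a i - a j) := by
    rw [dsc, ← resultant_map_map, ← derivative_map, ha, res_prod]
  obtain ⟨m, hm⟩ := prod_diff a
  have hd0 : dsc g f ≠ 0 := hF.fam.sq.ne_zero
  have hdsq : Squarefree ((-1) ^ m * e (dsc g f)) := by
    have h1 : (dsc g f).Separable := PerfectField.separable_iff_squarefree.2 hF.fam.sq
    have h2 : (e (dsc g f)).Separable := h1.map
    have h3 : Squarefree (e (dsc g f)) := h2.squarefree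
    rcases neg_one_pow_eq_or k'[X] m with h | h
    · rw [h, one_mul]; exact h3
    · rw [h, neg_one_mul]
      intro x hx
      exact h3 x ((dvd_neg).1 hx)
  have hd2 : ι ((-1) ^ m * e (dsc g f)) = (Matrix.vandermonde a).det ^ 2 := by
    rw [← hm, ← hd1, map_mul, map_pow, map_neg, map_one]
    rfl
  have ainj : Function.Injective a := by
    rw [← Matrix.det_vandermonde_ne_zero_iff]
    intro h0
    rw [h0, zero_pow two_ne_zero, map_eq_zero_iff _ hι] at hd2
    exact hdsq.ne_zero hd2
  -- the valuation
  obtain ⟨O, hO1, hO2⟩ := exists_vs ι hι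
  have hrs : r.Separable := PerfectField.separable_of_irreducible hF.gr.2.1
  have hdv : ∀ i j, i ≠ j → 1 < O.valuation (a i - a j) := by
    intro i j hij
    refine diff_val ι hι O hO1 hO2 (2 * g + 1) (2 * N) (by omega) f hfm hfd
      (fun j hj => hF.fam.ht.ht j (by omega)) r hF.gr.1 hF.gr.2.2.1 hrs
      (fun j hj => hF.fam.inf j (by omega)) a ha i j hij
  have hcv : ∀ c : k', c ≠ 0 → O.valuation (ι (C c)) = 1 := by
    intro c hc
    have h1 := hO1 c
    have h2 := hO1 c⁻¹
    rw [← O.valuation_le_one_iff] at h1 h2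
    have h3 : ι (C c) * ι (C c⁻¹) = 1 := by
      rw [← map_mul, ← C_mul, mul_inv_cancel₀ hc, C_1, map_one]
    have h4 := congrArg O.valuation h3
    rw [map_mul, map_one] at h4
    refine le_antisymm h1 ?_
    by_contra h5
    rw [not_le] at h5
    have h6 : O.valuation (ι (C c)) * O.valuation (ι (C c⁻¹)) < 1 := by
      calc _ ≤ O.valuation (ι (C c)) * 1 := mul_le_mul' le_rfl h2
        _ < 1 := by rwa [mul_one]
    exact absurd h4 h6.ne
  -- the splitting field
  let F : K'[X] := f.map ((algebraMap k'[X] K').comp e)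
  have hFW : F.map (algebraMap K' W) = ∏ i, (X - C (a i)) := by
    rw [← ha, Polynomial.map_map]; rfl
  have hsepF : F.Separable := by
    rw [← separable_map (algebraMap K' W), hFW, separable_prod_X_sub_C_iff]
    exact ainj
  have hspl : (F.map (algebraMap K' W)).Splits := IsAlgClosed.splits _
  let M := IntermediateField.adjoin K' (F.rootSet W)
  haveI hsf : IsSplittingField K' M F := IntermediateField.adjoin_rootSet_isSplittingField hspl
  haveI : IsGalois K' M := IsGalois.of_separable_splitting_field hsepF
  haveI : FiniteDimensional K' M := IsSplittingField.finiteDimensional M F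
  letI : Algebra k'[X] M := ((algebraMap K' M).comp (algebraMap k'[X] K')).toAlgebra
  haveI : IsScalarTower k'[X] K' M := IsScalarTower.of_algebraMap_eq fun x => rfl
  have hF0 : F.map (algebraMap K' W) ≠ 0 := by
    rw [hFW]; exact (monic_prod_of_monic _ _ fun i _ => monic_X_sub_C _).ne_zero
  have haM : ∀ i, a i ∈ M := by
    intro i
    apply IntermediateField.subset_adjoin
    rw [mem_rootSet', ]
    refine ⟨hF0, ?_⟩
    rw [aeval_def, ← eval_map, hFW, eval_prod, Finset.prod_eq_zero (Finset.mem_univ i)]
    simp
  let b : Fin (2 * g + 1) → M := fun i => ⟨a i, haM i⟩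
  have hFM : F.map (algebraMap K' M) = ∏ i, (X - C (b i)) := by
    apply Polynomial.map_injective (algebraMap M W) (algebraMap M W).injective
    rw [Polynomial.map_map, ← IsScalarTower.algebraMap_eq K' M W, hFW, Polynomial.map_prod]
    refine Finset.prod_congr rfl fun i _ => ?_
    rw [Polynomial.map_sub, map_X, map_C]
    rfl
  have hroot : ∀ x : M, eval₂ (algebraMap K' M) x F = 0 ↔ ∃ i, x = b i := by
    intro x
    rw [← eval_map, hFM, eval_prod, Finset.prod_eq_zero_iff]
    simp [sub_eq_zero]
  have key := mid_full (κ := k') K' M b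
    (by
      intro i
      refine ⟨f.map e, hfm.map _, ?_⟩
      have h1 := (hroot (b i)).2 ⟨i, rfl⟩
      rw [eval₂_map] at h1 ⊢
      exact h1)
    (fun i j h => ainj (congrArg Subtype.val h))
    (by
      intro s i
      have h1 := (hroot (b i)).2 ⟨i, rfl⟩
      have h2 : eval₂ (algebraMap K' M) (s (b i)) F = 0 := by
        have := congrArg s h1
        rw [map_zero] at this
        have h3 := Polynomial.hom_eval₂ F (algebraMap K' M) (s : M →+* M) (b i)
        rw [show ((s : M →+* M).comp (algebraMap K' M)) = algebraMap K' M from by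
          ext x; exact congrArg _ (s.commutes x)] at h3
        rw [← this]
        exact h3.symm
      exact (hroot _).1 h2)
    (by
      intro s hs
      have h1 : Algebra.adjoin K' (F.rootSet M) = ⊤ := IsSplittingField.adjoin_rootSet M F
      have h2 : (s : M →ₐ[K'] M) = AlgHom.id K' M := by
        apply AlgHom.ext_of_adjoin_eq_top h1
        intro x hx
        rw [mem_rootSet'] at hx
        obtain ⟨i, hi⟩ := (hroot x).1 hx.2
        rw [hi]
        exact hs i
      ext x
      have := congrArg (fun t : M →ₐ[K'] M => t x) h2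
      exact congrArg _ this)
    ((-1) ^ m * e (dsc g f)) hdsq
    (by
      apply (algebraMap M W).injective
      rw [map_pow, RingHom.map_det]
      have h1 : algebraMap M W (algebraMap k'[X] M ((-1) ^ m * e (dsc g f))) =
          ι ((-1) ^ m * e (dsc g f)) := rfl
      rw [h1, hd2]
      congr 2)
    (O.valuation.comap (algebraMap M W)) (fun c hc => hcv c hc) (fun i j h => hdv i j h)
  -- the group
  have hroot2 : ∀ x : W, eval₂ (big k k' K' W) x f = 0 ↔ ∃ i, x = a i := by
    intro x
    rw [← eval_map, ha, eval_prod, Finset.prod_eq_zero_iff]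
    simp [sub_eq_zero]
  have hfin : Finite {x : W // eval₂ (big k k' K' W) x f = 0} := by
    refine Finite.of_surjective (fun i : Fin (2 * g + 1) => (⟨a i, (hroot2 _).2 ⟨i, rfl⟩⟩ :
      {x : W // eval₂ (big k k' K' W) x f = 0})) ?_
    rintro ⟨x, hx⟩
    obtain ⟨i, hi⟩ := (hroot2 x).1 hx
    exact ⟨i, Subtype.ext hi.symm⟩
  induction σ using Equiv.Perm.swap_induction_on with
  | one => exact ⟨AlgEquiv.refl, fun x => rfl⟩
  | swap_mul σ x y hxy ih =>
    obtain ⟨τ, hτ⟩ := ih
    obtain ⟨i, hi⟩ := (hroot2 x).1 x.2
    obtain ⟨j, hj⟩ := (hroot2 y).1 y.2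
    have hij : i ≠ j := by
      rintro rfl
      exact hxy (Subtype.ext (hi.trans hj.symm))
    obtain ⟨s, h1, h2, h3⟩ := key i j hij
    have hs : ∀ z : M, (s.liftNormal W) (z : W) = ((s z : M) : W) := fun z =>
      AlgEquiv.liftNormal_commutes s W z
    have hsw : ∀ z : {x : W // eval₂ (big k k' K' W) x f = 0},
        (s.liftNormal W) (z : W) = (Equiv.swap x y z : W) := by
      intro z
      by_cases hzx : z = x
      · rw [hzx, Equiv.swap_apply_left, hi, hj]
        exact (hs (b i)).trans (congrArg Subtype.val h1)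
      by_cases hzy : z = y
      · rw [hzy, Equiv.swap_apply_right, hi, hj]
        exact (hs (b j)).trans (congrArg Subtype.val h2)
      obtain ⟨l, hl⟩ := (hroot2 z).1 z.2
      rw [Equiv.swap_apply_of_ne_of_ne hzx hzy, hl]
      refine (hs (b l)).trans (congrArg Subtype.val (h3 l ?_ ?_))
      · rintro rfl
        exact hzx (Subtype.ext (hl.trans hi.symm))
      · rintro rfl
        exact hzy (Subtype.ext (hl.trans hj.symm))
    refine ⟨τ.trans (s.liftNormal W), fun z => ?_⟩
    rw [AlgEquiv.trans_apply, hτ, hsw]
    rfl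

end Run7.h781.TG
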