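import Mathlib

/-!
# Project TG: the geometric Galois group, abstract part (helper781)

`A = κ[X]`, `κ` algebraically closed, `B` a Dedekind domain with an action of a finite group `G`
with invariants `A`, `a i` the zeros of a polynomial over `A` whose discriminant `d` is squarefree.
-/

set_option autoImplicit false
set_option linter.all false

open Polynomial
open scoped Classical

namespace Run7.h781.TG

theorem one_lt_prod {ι Γ : Type} [LinearOrderedCommGroupWithZero Γ] (s : Finset ι) (f : ι → Γ)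
    (hs : s.Nonempty) (h : ∀ i ∈ s, 1 < f i) : 1 < ∏ i ∈ s, f i := by
  have h1 : ∀ t : Finset ι, (∀ i ∈ t, 1 < f i) → 1 ≤ ∏ i ∈ t, f i := by
    intro t
    induction t using Finset.induction_on with
    | empty => intro _; simp
    | insert x t hx ih =>
      intro ht
      rw [Finset.prod_insert hx]
      have h2 := ih fun i hi => ht i (Finset.mem_insert_of_mem hi)
      have h3 := ht x (Finset.mem_insert_self _ _)
      calc (1 : Γ) = 1 * 1 := (one_mul 1).symm
        _ ≤ _ := mul_le_mul' h3.le h2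
  obtain ⟨x, hx⟩ := hs
  rw [← Finset.mul_prod_erase _ _ hx]
  have h2 := h1 (s.erase x) fun i hi => h i (Finset.mem_of_mem_erase hi)
  calc (1 : Γ) < f x := h x hx
    _ = f x * 1 := (mul_one _).symm
    _ ≤ _ := mul_le_mul' le_rfl h2

section

variable {κ : Type} [Field κ] [IsAlgClosed κ] {B : Type} [CommRing B] [Algebra κ[X] B]

/-- Elements of `B` are constants modulo a prime over `X - τ`. -/
theorem exists_const [Algebra.IsIntegral κ[X] B] (P : Ideal B) [P.IsPrime] (τ : κ)
    (hτ : algebraMap κ[X] B (X - C τ) ∈ P) (b : B) : ∃ c : κ, b - algebraMap κ[X] B (C c) ∈ P := by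
  obtain ⟨p, hp, hpb⟩ := Algebra.IsIntegral.isIntegral (R := κ[X]) b
  -- the specialisation
  have hsp : ∀ q : κ[X], algebraMap κ[X] B (q - C (q.eval τ)) ∈ P := by
    intro q
    have h1 : X - C τ ∣ q - C (q.eval τ) := Polynomial.X_sub_C_dvd_sub_C_eval
    obtain ⟨s, hs⟩ := h1
    rw [hs, map_mul]
    exact P.mul_mem_right _ hτ
  have h2 : eval₂ ((algebraMap κ[X] B).comp C) b (p.map (evalRingHom τ)) ∈ P := by
    have h3 : eval₂ (algebraMap κ[X] B) b p -
        eval₂ ((algebraMap κ[X] B).comp C) b (p.map (evalRingHom τ)) ∈ P := by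
      rw [eval₂_map, eval₂_eq_sum_range, eval₂_eq_sum_range, ← Finset.sum_sub_distrib]
      refine P.sum_mem fun i _ => ?_
      rw [← sub_mul]
      refine P.mul_mem_right _ ?_
      have := hsp (p.coeff i)
      rw [map_sub] at this
      simpa using this
    rw [hpb, zero_sub] at h3
    exact neg_mem_iff.1 h3
  have hm : (p.map (evalRingHom τ)).Monic := hp.map _
  have hs := IsAlgClosed.splits (p.map (evalRingHom τ))
  have h4 : p.map (evalRingHom τ) = ((p.map (evalRingHom τ)).roots.map fun c => X - C c).prod := by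
    have := hs.eq_prod_roots
    rwa [hm.leadingCoeff, C_1, one_mul] at this
  rw [h4, eval₂_multiset_prod, Multiset.map_map] at h2
  obtain ⟨x, hx, hx2⟩ := Ideal.IsPrime.multiset_prod_mem_iff_exists_mem ‹P.IsPrime› _ |>.1 h2
  rw [Multiset.mem_map] at hx
  obtain ⟨c, _, rfl⟩ := hx
  exact ⟨c, by simpa using hx2⟩

theorem dvd_of_mem (P : Ideal B) [P.IsPrime] (τ : κ)
    (hτ : algebraMap κ[X] B (X - C τ) ∈ P) (q : κ[X]) (hq : algebraMap κ[X] B q ∈ P) :
    X - C τ ∣ q := by
  rw [dvd_iff_isRoot]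
  by_contra h
  have h1 : X - C τ ∣ q - C (q.eval τ) := Polynomial.X_sub_C_dvd_sub_C_eval
  obtain ⟨s, hs⟩ := h1
  have h2 : algebraMap κ[X] B (C (q.eval τ)) ∈ P := by
    have : C (q.eval τ) = q - (X - C τ) * s := by rw [← hs]; ring
    rw [this, map_sub, map_mul]
    exact P.sub_mem hq (P.mul_mem_right _ hτ)
  have h3 : IsUnit (C (q.eval τ) : κ[X]) := isUnit_C.2 (isUnit_iff_ne_zero.2 h)
  exact ‹P.IsPrime›.ne_top (P.eq_top_of_isUnit_mem h2 (h3.map _))

variable {G : Type} [Group G] [Finite G] [MulSemiringAction G B]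

/-- If the stabiliser of `P` is trivial, then `P` is unramified. -/
theorem not_mem_sq [IsDomain B] [IsDedekindDomain B]
    (hinv : ∀ x : B, (∀ s : G, s • x = x) → ∃ q : κ[X], algebraMap κ[X] B q = x)
    (P : Ideal B) [hP : P.IsPrime] (hP0 : P ≠ ⊥) (τ : κ)
    (hτ : algebraMap κ[X] B (X - C τ) ∈ P)
    (hst : ∀ s : G, s ≠ 1 → ∃ x ∈ P, s • x ∉ P) : algebraMap κ[X] B (X - C τ) ∉ P ^ 2 := by
  intro hmem
  haveI : Fintype G := Fintype.ofFinite G
  let φ : G → B →+* B := fun s => MulSemiringAction.toRingHom G B s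
  have hφ : ∀ s x, φ s x = s • x := fun s x => rfl
  let f : G → Ideal B := fun s => if s = 1 then P ^ 2 else Ideal.comap (φ s) P
  have hf1 : f 1 = P ^ 2 := if_pos rfl
  have hf2 : ∀ s, s ≠ 1 → f s = Ideal.comap (φ s) P := fun s hs => if_neg hs
  have key : ¬ ((P : Set B) ⊆ ⋃ s ∈ (↑(Finset.univ : Finset G) : Set G), f s) := by
    rw [Ideal.subset_union_prime (1 : G) 1 (fun s _ h1 _ => by
      rw [hf2 s h1]; infer_instance)]
    rintro ⟨s, _, hs⟩
    by_cases h1 : s = 1
    · rw [h1, hf1] at hs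
      have h2 : P ^ 2 ≤ P := Ideal.pow_le_self two_ne_zero
      have h3 : P ^ 2 = P := le_antisymm h2 hs
      rw [sq] at h3
      have h4 : P * P = P * ⊤ := by rw [h3, Ideal.mul_top]
      exact hP.ne_top (mul_left_cancel₀ hP0 h4)
    · rw [hf2 s h1] at hs
      obtain ⟨x, hx, hx2⟩ := hst s h1
      exact hx2 (hs hx)
  rw [Set.not_subset] at key
  obtain ⟨x, hxP, hx⟩ := key
  simp only [Finset.coe_univ, Set.mem_univ, Set.iUnion_true, Set.mem_iUnion, not_exists] at hx
  have hx1 : x ∉ P ^ 2 := by have := hx 1; rwa [hf1] at this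
  have hx2 : ∀ s : G, s ≠ 1 → s • x ∉ P := by
    intro s hs h
    have := hx s
    rw [hf2 s hs] at this
    exact this h
  obtain ⟨q, hq⟩ := hinv (∏ s : G, s • x) (by
    intro t
    rw [Finset.smul_prod']
    refine Fintype.prod_equiv (Equiv.mulLeft t) _ _ fun s => ?_
    simp [mul_smul])
  have h1 : ∏ s : G, s • x = x * ∏ s ∈ Finset.univ.erase (1 : G), s • x := by
    rw [← Finset.mul_prod_erase Finset.univ _ (Finset.mem_univ (1 : G)), one_smul]
  have h2 : algebraMap κ[X] B q ∈ P := by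
    rw [hq, h1]; exact P.mul_mem_right _ hxP
  obtain ⟨q', hq'⟩ := dvd_of_mem P τ hτ q h2
  have h3 : x * ∏ s ∈ Finset.univ.erase (1 : G), s • x ∈ P ^ 2 := by
    rw [← h1, ← hq, hq', map_mul]
    exact Ideal.mul_mem_right _ _ hmem
  rw [mul_comm] at h3
  rcases Ideal.IsPrime.mul_mem_pow P h3 with h4 | h4
  · obtain ⟨s, hs, hs2⟩ := hP.prod_mem_iff.1 h4
    exact hx2 s (Finset.ne_of_mem_erase hs) hs2
  · exact hx1 h4

/-- Two collisions modulo `P` make the discriminant divisible by `(X - τ) ^ 2`. -/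
theorem two_coll (hinj : Function.Injective (algebraMap κ[X] B)) [Algebra.IsIntegral κ[X] B]
    (hact : ∀ (s : G) (q : κ[X]), s • algebraMap κ[X] B q = algebraMap κ[X] B q)
    (hinv : ∀ x : B, (∀ s : G, s • x = x) → ∃ q : κ[X], algebraMap κ[X] B q = x)
    {n : ℕ} (a : Fin n → B) (ainj : Function.Injective a)
    (hperm : ∀ (s : G) (i : Fin n), ∃ j, s • a i = a j) (d : κ[X])
    (hd : algebraMap κ[X] B d = (Matrix.vandermonde a).det ^ 2)
    (P : Ideal B) [hP : P.IsPrime] (τ : κ)
    (hτ : algebraMap κ[X] B (X - C τ) ∈ P) (p q p' q' : Fin n) (hpq : p ≠ q) (h1 : p' ≠ p)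
    (h2 : p' ≠ q) (h3 : q' ≠ p) (h4 : q' ≠ q) (hp : a p - a p' ∈ P) (hq : a q - a q' ∈ P) :
    (X - C τ) ^ 2 ∣ d := by
  obtain ⟨m, rfl⟩ : ∃ m, n = m + 2 := by
    have : 2 ≤ n := by
      have h5 : ({p, q} : Finset (Fin n)).card ≤ Fintype.card (Fin n) := Finset.card_le_univ _
      rw [Finset.card_pair hpq, Fintype.card_fin] at h5
      exact h5
    exact ⟨n - 2, by omega⟩
  choose c hc using fun i => exists_const P τ hτ (a i)
  let w : κ[X] := ∏ i ∈ ({p, q} : Finset (Fin (m + 2)))ᶜ, (X - C (c i))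
  have hwm : w.Monic := monic_prod_of_monic _ _ fun i _ => monic_X_sub_C _
  have hwd : w.natDegree = m := by
    rw [natDegree_prod_of_monic _ _ fun i _ => monic_X_sub_C _]
    simp only [natDegree_X_sub_C, Finset.sum_const, smul_eq_mul, mul_one]
    rw [Finset.card_compl, Finset.card_pair hpq, Fintype.card_fin]
    omega
  let ψ : κ →+* B := (algebraMap κ[X] B).comp C
  let W : Fin (m + 2) → B[X] := fun j =>
    (if (j : ℕ) < m then X ^ (j : ℕ) else w * X ^ ((j : ℕ) - m)).map ψ
  haveI hnt : Nontrivial B := ⟨⟨a p, a q, fun h => hpq (ainj h)⟩⟩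
  have hWm : ∀ j, (W j).Monic := by
    intro j
    refine Monic.map _ ?_
    split_ifs
    · exact monic_X_pow _
    · exact hwm.mul (monic_X_pow _)
  have hWd : ∀ j, (W j).natDegree = j := by
    intro j
    have hj := j.2
    change (Polynomial.map ψ _).natDegree = _
    rw [Monic.natDegree_map]
    · split_ifs with h
      · rw [natDegree_X_pow]
      · rw [hwm.natDegree_mul (monic_X_pow _), hwd, natDegree_X_pow]
        omega
    · split_ifs
      · exact monic_X_pow _
      · exact hwm.mul (monic_X_pow _)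
  have hV := Matrix.det_eval_matrixOfPolynomials_eq_det_vandermonde a W hWd hWm
  -- the values of `w`
  have hw : ∀ l, eval (a l) (w.map ψ) ∈ P := by
    intro l
    have aux : ∀ i, i ≠ p → i ≠ q → a l - a i ∈ P → eval (a l) (w.map ψ) ∈ P := by
      intro i hi1 hi2 hli
      rw [Polynomial.map_prod, eval_prod]
      refine P.mem_of_dvd (Finset.dvd_prod_of_mem _ (a := i) (by simp [hi1, hi2])) ?_
      have : a l - algebraMap κ[X] B (C (c i)) ∈ P := by
        have := P.add_mem hli (hc i)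
        rwa [sub_add_sub_cancel] at this
      simpa [ψ] using this
    by_cases hl : l = p
    · exact aux p' h1 h2 (by rw [hl]; exact hp)
    · by_cases hl2 : l = q
      · exact aux q' h3 h4 (by rw [hl2]; exact hq)
      · exact aux l hl hl2 (by rw [sub_self]; exact P.zero_mem)
  have hWP : ∀ j : Fin (m + 2), m ≤ (j : ℕ) → ∀ l, eval (a l) (W j) ∈ P := by
    intro j hj l
    have : W j = w.map ψ * X ^ ((j : ℕ) - m) := by
      change (Polynomial.map ψ _) = _
      rw [if_neg (by omega), Polynomial.map_mul, Polynomial.map_pow, map_X]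
    rw [this, eval_mul]
    exact P.mul_mem_right _ (hw l)
  -- the matrix
  let V : Matrix (Fin (m + 2)) (Fin (m + 2)) B := Matrix.of fun i j => (W j).eval (a i)
  have hVV : algebraMap κ[X] B d = (V.transpose * V).det := by
    rw [hd, Matrix.det_mul, Matrix.det_transpose, hV, sq]
  have hentry : ∀ i j, (V.transpose * V) i j = ∑ l, (W i).eval (a l) * (W j).eval (a l) := by
    intro i j
    rw [Matrix.mul_apply]
    rfl
  have hWact : ∀ (s : G) (j) (x : B), s • (W j).eval x = (W j).eval (s • x) := by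
    intro s j x
    change MulSemiringAction.toRingHom G B s (eval x (Polynomial.map ψ _)) =
      eval (MulSemiringAction.toRingHom G B s x) (Polynomial.map ψ _)
    rw [eval_map, eval_map, hom_eval₂]
    congr 1
    ext z
    exact hact s _
  have hinvar : ∀ i j, ∃ t : κ[X], algebraMap κ[X] B t = (V.transpose * V) i j := by
    intro i j
    apply hinv
    intro s
    rw [hentry]
    choose π hπ using hperm s
    have hπi : Function.Injective π := by
      intro x y hxy
      have : s • a x = s • a y := by rw [hπ, hπ, hxy]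
      exact ainj ((MulAction.injective s) this)
    have hπb : Function.Bijective π := Finite.injective_iff_bijective.1 hπi
    rw [Finset.smul_sum]
    refine Fintype.sum_bijective π hπb _ _ fun l => ?_
    rw [smul_mul', hWact, hWact, hπ]
  choose t ht using hinvar
  have htd : d = (Matrix.of t).det := by
    apply hinj
    rw [hVV, RingHom.map_det]
    congr 1
    ext i j
    rw [← ht i j]
    rfl
  have htdiv : ∀ i : Fin (m + 2), m ≤ (i : ℕ) → ∀ j, X - C τ ∣ t i j := by
    intro i hi j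
    apply dvd_of_mem P τ hτ
    rw [ht, hentry]
    exact P.sum_mem fun l _ => P.mul_mem_right _ (hWP i hi l)
  have hrow : ∀ i j, ∃ t' : κ[X], t i j = (if m ≤ (i : ℕ) then X - C τ else 1) * t' := by
    intro i j
    split_ifs with h
    · exact htdiv i h j
    · exact ⟨t i j, (one_mul _).symm⟩
  choose t' ht' using hrow
  have hdet : d = (∏ i : Fin (m + 2), if m ≤ (i : ℕ) then X - C τ else 1) * (Matrix.of t').det := by
    rw [htd, ← Matrix.det_mul_column]
    refine congrArg Matrix.det (Matrix.ext fun i j => ?_)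
    exact ht' i j
  have hprod : (∏ i : Fin (m + 2), if m ≤ (i : ℕ) then X - C τ else 1) = (X - C τ) ^ 2 := by
    rw [Fin.prod_univ_castSucc, Fin.prod_univ_castSucc, Finset.prod_eq_one]
    · simp [sq]
    · intro i _
      rw [if_neg]
      simp
  rw [hdet, hprod]
  exact Dvd.intro _ rfl

/-- **Local statement.** If two zeros collide modulo a prime, the group contains their
transposition. -/
theorem loc [IsDomain B] [IsDedekindDomain B]
    (hinj : Function.Injective (algebraMap κ[X] B)) [Algebra.IsIntegral κ[X] B]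
    (hact : ∀ (s : G) (q : κ[X]), s • algebraMap κ[X] B q = algebraMap κ[X] B q)
    (hinv : ∀ x : B, (∀ s : G, s • x = x) → ∃ q : κ[X], algebraMap κ[X] B q = x)
    {n : ℕ} (a : Fin n → B) (ainj : Function.Injective a)
    (hperm : ∀ (s : G) (i : Fin n), ∃ j, s • a i = a j)
    (hfaith : ∀ s : G, (∀ i, s • a i = a i) → s = 1) (d : κ[X]) (hsq : Squarefree d)
    (hd : algebraMap κ[X] B d = (Matrix.vandermonde a).det ^ 2)
    (P : Ideal B) [hP : P.IsPrime] (i j : Fin n) (hij : i ≠ j) (hP2 : a i - a j ∈ P) :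
    ∃ s : G, s • a i = a j ∧ s • a j = a i ∧ ∀ l, l ≠ i → l ≠ j → s • a l = a l := by
  -- `(a i - a j) ^ 2` divides `d`
  have hdvd : a i - a j ∣ (Matrix.vandermonde a).det := by
    rw [Matrix.det_vandermonde]
    rcases lt_or_gt_of_ne hij with h | h
    · have h1 : a j - a i ∣ ∏ j ∈ Finset.Ioi i, (a j - a i) :=
        Finset.dvd_prod_of_mem (fun j => a j - a i) (Finset.mem_Ioi.2 h)
      have h2 : a j - a i ∣ ∏ i, ∏ j ∈ Finset.Ioi i, (a j - a i) :=
        h1.trans (Finset.dvd_prod_of_mem (fun i => ∏ j ∈ Finset.Ioi i, (a j - a i))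
          (Finset.mem_univ i))
      rwa [← neg_dvd, neg_sub]
    · have h1 : a i - a j ∣ ∏ l ∈ Finset.Ioi j, (a l - a j) :=
        Finset.dvd_prod_of_mem (fun l => a l - a j) (Finset.mem_Ioi.2 h)
      exact h1.trans (Finset.dvd_prod_of_mem (fun i => ∏ j ∈ Finset.Ioi i, (a j - a i))
          (Finset.mem_univ j))
  have hV : (Matrix.vandermonde a).det ∈ P := P.mem_of_dvd hdvd hP2
  have hdP2 : algebraMap κ[X] B d ∈ P ^ 2 := by
    rw [hd]; exact Ideal.pow_mem_pow hV 2
  have hdP : algebraMap κ[X] B d ∈ P := Ideal.pow_le_self two_ne_zero hdP2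
  have hd0 : d ≠ 0 := hsq.ne_zero
  -- the zero `τ` of `d` under `P`
  obtain ⟨τ, hτ⟩ : ∃ τ : κ, algebraMap κ[X] B (X - C τ) ∈ P := by
    have h1 := (IsAlgClosed.splits d).eq_prod_roots
    rw [h1, map_mul, map_multiset_prod, Multiset.map_map] at hdP
    rcases hP.mem_or_mem hdP with h2 | h2
    · exfalso
      have h3 : IsUnit (C d.leadingCoeff : κ[X]) :=
        isUnit_C.2 (isUnit_iff_ne_zero.2 (leadingCoeff_ne_zero.2 hd0))
      exact hP.ne_top (P.eq_top_of_isUnit_mem h2 (h3.map _))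
    · obtain ⟨x, hx, hx2⟩ := Ideal.IsPrime.multiset_prod_mem_iff_exists_mem hP _ |>.1 h2
      rw [Multiset.mem_map] at hx
      obtain ⟨c, _, rfl⟩ := hx
      exact ⟨c, hx2⟩
  have hsq2 : ¬ (X - C τ) ^ 2 ∣ d := by
    intro h
    rw [sq] at h
    exact not_isUnit_X_sub_C τ (hsq _ h)
  -- `X - τ` is in `P ^ 2`
  have hπ : algebraMap κ[X] B (X - C τ) ∈ P ^ 2 := by
    obtain ⟨e, he⟩ := dvd_of_mem P τ hτ d hdP
    rw [he, map_mul, mul_comm] at hdP2
    rcases Ideal.IsPrime.mul_mem_pow P hdP2 with h | h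
    · exfalso
      obtain ⟨e', he'⟩ := dvd_of_mem P τ hτ e h
      exact hsq2 ⟨e', by rw [he, he', sq, mul_assoc]⟩
    · exact h
  have hP0 : P ≠ ⊥ := by
    intro h
    rw [h, Ideal.mem_bot, map_eq_zero_iff _ hinj] at hτ
    exact X_sub_C_ne_zero τ hτ
  -- a nontrivial element of the stabiliser
  obtain ⟨s, hs1, hsP⟩ : ∃ s : G, s ≠ 1 ∧ ∀ x ∈ P, s • x ∈ P := by
    by_contra hcon
    push Not at hcon
    exact not_mem_sq hinv P hP0 τ hτ hcon hπ
  have hin : ∀ x : B, s • x - x ∈ P := by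
    intro x
    obtain ⟨c, hc⟩ := exists_const P τ hτ x
    have h1 := hsP _ hc
    rw [smul_sub, hact] at h1
    have h2 := P.sub_mem h1 hc
    rwa [sub_sub_sub_cancel_right] at h2
  choose π hπ' using hperm s
  -- only `i` and `j` collide
  have hcoll : ∀ l m : Fin n, l ≠ m → a l - a m ∈ P → (l = i ∧ m = j) ∨ (l = j ∧ m = i) := by
    intro l m hlm hlP
    by_contra hcon
    push Not at hcon
    apply hsq2
    have hP2' : a j - a i ∈ P := by rw [← neg_sub]; exact P.neg_mem hP2
    have hlP' : a m - a l ∈ P := by rw [← neg_sub]; exact P.neg_mem hlP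
    have T := fun p q p' q' => two_coll hinj hact hinv a ainj hperm d hd P τ hτ p q p' q'
    by_cases h1 : l = i
    · subst h1
      have h2 : m ≠ j := hcon.1 rfl
      exact T j m l l h2.symm hij hlm hij hlm hP2' hlP'
    by_cases h2 : l = j
    · subst h2
      have h3 : m ≠ i := hcon.2 rfl
      exact T i m l l h3.symm hij.symm hlm hij.symm hlm hP2 hlP'
    by_cases h3 : m = i
    · subst h3
      exact T j l m m (Ne.symm h2) hij (Ne.symm hlm) hij (Ne.symm hlm) hP2' hlP
    by_cases h4 : m = j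
    · subst h4
      exact T i l m m (Ne.symm h1) hij.symm (Ne.symm hlm) hij.symm (Ne.symm hlm) hP2 hlP
    exact T i l j m (Ne.symm h1) hij.symm (Ne.symm h2) h3 (Ne.symm hlm) hP2 hlP
  have hmv : ∀ x, π x ≠ x → (π x = i ∧ x = j) ∨ (π x = j ∧ x = i) := by
    intro x hx
    refine hcoll (π x) x hx ?_
    rw [← hπ']
    exact hin _
  have hfix : ∀ x, x ≠ i → x ≠ j → π x = x := by
    intro x h1 h2
    by_contra h3
    rcases hmv x h3 with h | h
    · exact h2 h.2
    · exact h1 h.2
  have hinjπ : ∀ x y, π x = π y → x = y := by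
    intro x y h
    have h1 : s • a x = s • a y := by rw [hπ', hπ', h]
    exact ainj (MulAction.injective s h1)
  obtain ⟨l, hl⟩ : ∃ l, π l ≠ l := by
    by_contra hcon
    push Not at hcon
    exact hs1 (hfaith s fun x => by rw [hπ', hcon])
  have hi : π i = j := by
    by_contra h
    have h1 : π i = i := by
      by_contra h2
      rcases hmv i h2 with h3 | h3
      · exact hij h3.2
      · exact h h3.1
    rcases hmv l hl with h2 | h2
    · have := hinjπ l i (by rw [h1, h2.1])
      rw [this] at hl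
      exact hl h1
    · rw [h2.2] at hl
      exact hl h1
  have hj : π j = i := by
    by_contra h
    have h1 : π j = j := by
      by_contra h2
      rcases hmv j h2 with h3 | h3
      · exact h h3.1
      · exact hij h3.2.symm
    exact hij (hinjπ i j (by rw [hi, h1]))
  exact ⟨s, by rw [hπ', hi], by rw [hπ', hj], fun x h1 h2 => by rw [hπ', hfix x h1 h2]⟩

/-- **The geometric Galois group.** -/
theorem abs_full [IsDomain B] [IsDedekindDomain B]
    (hinj : Function.Injective (algebraMap κ[X] B)) [Algebra.IsIntegral κ[X] B]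
    (hact : ∀ (s : G) (q : κ[X]), s • algebraMap κ[X] B q = algebraMap κ[X] B q)
    (hinv : ∀ x : B, (∀ s : G, s • x = x) → ∃ q : κ[X], algebraMap κ[X] B q = x)
    {n : ℕ} (a : Fin n → B) (ainj : Function.Injective a)
    (hperm : ∀ (s : G) (i : Fin n), ∃ j, s • a i = a j)
    (hfaith : ∀ s : G, (∀ i, s • a i = a i) → s = 1) (d : κ[X]) (hsq : Squarefree d)
    (hd : algebraMap κ[X] B d = (Matrix.vandermonde a).det ^ 2)
    {Γ : Type} [LinearOrderedCommGroupWithZero Γ] (v : Valuation B Γ)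
    (hv1 : ∀ c : κ, c ≠ 0 → v (algebraMap κ[X] B (C c)) = 1)
    (hv2 : ∀ i j : Fin n, i ≠ j → 1 < v (a i - a j)) (i j : Fin n) (hij : i ≠ j) :
    ∃ s : G, s • a i = a j ∧ s • a j = a i ∧ ∀ l, l ≠ i → l ≠ j → s • a l = a l := by
  haveI : Fintype G := Fintype.ofFinite G
  by_contra hcon
  -- the relation
  let Rel : Fin n → Fin n → Prop := fun i j =>
    ∃ s : G, s • a i = a j ∧ s • a j = a i ∧ ∀ l, l ≠ i → l ≠ j → s • a l = a l
  have hRsymm : ∀ x y, Rel x y → Rel y x := by
    rintro x y ⟨s, h1, h2, h3⟩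
    exact ⟨s, h2, h1, fun l h4 h5 => h3 l h5 h4⟩
  have hRtrans : ∀ x y z, x ≠ y → y ≠ z → x ≠ z → Rel x y → Rel y z → Rel x z := by
    rintro x y z hxy hyz hxz ⟨s, h1, h2, h3⟩ ⟨t, h4, h5, h6⟩
    refine ⟨s * t * s, ?_, ?_, fun l h7 h8 => ?_⟩
    · rw [mul_smul, mul_smul, h1, h4, h3 z hxz.symm hyz.symm]
    · rw [mul_smul, mul_smul, h3 z hxz.symm hyz.symm, h5, h2]
    · rw [mul_smul, mul_smul]
      by_cases h9 : l = y
      · rw [h9, h2, h6 x hxy hxz, h1]
      · rw [h3 l h7 h9, h6 l h9 h8, h3 l h7 h9]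
  -- the class of `i`
  let Cl : Finset (Fin n) := Finset.univ.filter fun x => x = i ∨ Rel x i
  have hiC : i ∈ Cl := by simp [Cl]
  have hjC : j ∉ Cl := by
    simp only [Cl, Finset.mem_filter, Finset.mem_univ, true_and, not_or]
    exact ⟨hij.symm, fun h => hcon (hRsymm _ _ h)⟩
  have hC : ∀ x ∈ Cl, ∀ y ∉ Cl, ¬ Rel x y := by
    intro x hx y hy hxy
    simp only [Cl, Finset.mem_filter, Finset.mem_univ, true_and, not_or] at hx hy
    have hxy' : x ≠ y := by
      rintro rfl
      rcases hx with h | h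
      · exact hy.1 h
      · exact hy.2 h
    rcases hx with h | h
    · subst h
      exact hy.2 (hRsymm _ _ hxy)
    · by_cases hxi : x = i
      · subst hxi
        exact hy.2 (hRsymm _ _ hxy)
      · exact hy.2 (hRtrans y x i hxy'.symm hxi hy.1 (hRsymm _ _ hxy) h)
  -- the unit
  let R : B := ∏ x ∈ Cl, ∏ y ∈ Clᶜ, (a x - a y)
  have hRu : IsUnit R := by
    by_contra h
    obtain ⟨P, hP, hRP⟩ := exists_max_ideal_of_mem_nonunits h
    haveI := hP.isPrime
    obtain ⟨x, hx, hx2⟩ := hP.isPrime.prod_mem_iff.1 hRP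
    obtain ⟨y, hy, hy2⟩ := hP.isPrime.prod_mem_iff.1 hx2
    rw [Finset.mem_compl] at hy
    have hxy : x ≠ y := by rintro rfl; exact hy hx
    exact hC x hx y hy (loc hinj hact hinv a ainj hperm hfaith d hsq hd P x y hxy hy2)
  have hNu : ∃ c : κ, c ≠ 0 ∧ algebraMap κ[X] B (C c) = ∏ s : G, s • R := by
    have hI : ∀ z : B, ∃ q : κ[X], algebraMap κ[X] B q = ∏ s : G, s • z := by
      intro z
      apply hinv
      intro t
      rw [Finset.smul_prod']
      refine Fintype.prod_equiv (Equiv.mulLeft t) _ _ fun s => ?_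
      simp [mul_smul]
    obtain ⟨S, hS⟩ := hRu.exists_right_inv
    obtain ⟨q, hq⟩ := hI R
    obtain ⟨q', hq'⟩ := hI S
    have h1 : q * q' = 1 := by
      apply hinj
      rw [map_mul, map_one, hq, hq', ← Finset.prod_mul_distrib]
      refine Finset.prod_eq_one fun s _ => ?_
      rw [← smul_mul', hS, smul_one]
    have h2 : IsUnit q := IsUnit.of_mul_eq_one _ h1
    obtain ⟨c, hc, hc2⟩ := Polynomial.isUnit_iff.1 h2
    exact ⟨c, hc.ne_zero, by rw [hc2, hq]⟩
  obtain ⟨c, hc0, hc⟩ := hNu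
  have h1 := hv1 c hc0
  rw [hc, map_prod] at h1
  have h2 : ∀ s : G, 1 < v (s • R) := by
    intro s
    have h3 : s • R = ∏ x ∈ Cl, ∏ y ∈ Clᶜ, (s • a x - s • a y) := by
      simp only [R, Finset.smul_prod', smul_sub]
    rw [h3, map_prod]
    simp_rw [map_prod]
    have hpos : ∀ x y, x ≠ y → 1 < v (s • a x - s • a y) := by
      intro x y hxy
      obtain ⟨x', hx'⟩ := hperm s x
      obtain ⟨y', hy'⟩ := hperm s y
      rw [hx', hy']
      apply hv2
      rintro rfl
      exact hxy (ainj (MulAction.injective s (hx'.trans hy'.symm)))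
    refine one_lt_prod _ _ ⟨i, hiC⟩ fun x hx => one_lt_prod _ _ ⟨j, Finset.mem_compl.2 hjC⟩ ?_
    intro y hy
    apply hpos
    rintro rfl
    exact (Finset.mem_compl.1 hy) hx
  have h3 := one_lt_prod (Finset.univ : Finset G) (fun s => v (s • R)) ⟨1, Finset.mem_univ _⟩
    fun s _ => h2 s
  rw [h1] at h3
  exact lt_irrefl _ h3

end

end Run7.h781.TG
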