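import Pool.Agent.Run7.h781.TG.Abs

/-!
# Project TG: the geometric Galois group, auxiliary results (helper781)
-/

set_option autoImplicit false
set_option linter.all false

open Polynomial
open scoped Classical

namespace Run7.h781.TG

/-- The abstract theorem for a Galois extension of `κ(X)`. -/
theorem mid_full {κ : Type} [Field κ] [IsAlgClosed κ] (K' M : Type) [Field K'] [Algebra κ[X] K']
    [IsFractionRing κ[X] K'] [Field M] [Algebra K' M] [Algebra κ[X] M] [IsScalarTower κ[X] K' M]
    [FiniteDimensional K' M] [IsGalois K' M] {n : ℕ} (a : Fin n → M)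
    (aint : ∀ i, IsIntegral κ[X] (a i)) (ainj : Function.Injective a)
    (hperm : ∀ (s : M ≃ₐ[K'] M) (i : Fin n), ∃ j, s (a i) = a j)
    (hfaith : ∀ s : M ≃ₐ[K'] M, (∀ i, s (a i) = a i) → s = 1) (d : κ[X]) (hsq : Squarefree d)
    (hd : algebraMap κ[X] M d = (Matrix.vandermonde a).det ^ 2)
    {Γ : Type} [LinearOrderedCommGroupWithZero Γ] (v : Valuation M Γ)
    (hv1 : ∀ c : κ, c ≠ 0 → v (algebraMap κ[X] M (C c)) = 1)
    (hv2 : ∀ i j : Fin n, i ≠ j → 1 < v (a i - a j)) (i j : Fin n) (hij : i ≠ j) :
    ∃ s : M ≃ₐ[K'] M, s (a i) = a j ∧ s (a j) = a i ∧ ∀ l, l ≠ i → l ≠ j → s (a l) = a l := by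
  let B := integralClosure κ[X] M
  haveI : IsDedekindDomain B := integralClosure.isDedekindDomain κ[X] K' M
  have hinjM : Function.Injective (algebraMap κ[X] M) := by
    rw [IsScalarTower.algebraMap_eq κ[X] K' M]
    exact (algebraMap K' M).injective.comp (IsFractionRing.injective κ[X] K')
  let R := galRestrict κ[X] K' M B
  haveI : Finite (B ≃ₐ[κ[X]] B) := Finite.of_equiv _ R.toEquiv
  have hR : ∀ (s : M ≃ₐ[K'] M) (x : B), ((R s x : B) : M) = s (x : M) := fun s x =>
    algebraMap_galRestrict_apply κ[X] s x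
  have hinj : Function.Injective (algebraMap κ[X] B) := by
    intro x y h
    apply hinjM
    rw [IsScalarTower.algebraMap_apply κ[X] B M, h, ← IsScalarTower.algebraMap_apply κ[X] B M]
  have hcoe : ∀ q : κ[X], ((algebraMap κ[X] B q : B) : M) = algebraMap κ[X] M q := fun q => rfl
  let b : Fin n → B := fun i => ⟨a i, aint i⟩
  have key := abs_full (G := B ≃ₐ[κ[X]] B) (κ := κ) (B := B) hinj
    (fun s q => s.commutes q)
    (by
      intro x hx
      have h1 : ∀ s : M ≃ₐ[K'] M, s (x : M) = x := by
        intro s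
        rw [← hR, show R s x = x from hx (R s)]
      have h2 : (x : M) ∈ Set.range (algebraMap K' M) := by
        rw [← IsGalois.mem_range_algebraMap_iff_fixed]  at *
        exact h1
      obtain ⟨y, hy⟩ := h2
      have h3 : IsIntegral κ[X] (x : M) := x.2
      rw [← hy] at h3
      have h4 : IsIntegral κ[X] y :=
        (isIntegral_algebraMap_iff (algebraMap K' M).injective).1 h3
      obtain ⟨q, hq⟩ := IsIntegrallyClosed.isIntegral_iff.1 h4
      refine ⟨q, Subtype.ext ?_⟩
      rw [hcoe, ← hy, ← hq, ← IsScalarTower.algebraMap_apply κ[X] K' M])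
    b (fun i j h => ainj (congrArg Subtype.val h))
    (by
      intro s i
      obtain ⟨s, rfl⟩ := R.surjective s
      obtain ⟨j, hj⟩ := hperm s i
      exact ⟨j, Subtype.ext (by rw [AlgEquiv.smul_def, hR]; exact hj)⟩)
    (by
      intro s hs
      obtain ⟨s, rfl⟩ := R.surjective s
      have : s = 1 := by
        apply hfaith
        intro i
        have := congrArg Subtype.val (hs i)
        rw [AlgEquiv.smul_def, hR] at this
        exact this
      rw [this, map_one])
    d hsq
    (by
      apply Subtype.val_injective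
      rw [hcoe, hd]
      have : (Matrix.vandermonde a).det = ((Matrix.vandermonde b).det : B) := by
        have h := RingHom.map_det (algebraMap B M) (Matrix.vandermonde b)
        change _ = algebraMap B M _
        rw [h]
        congr 1
      rw [this]
      rfl)
    (v.comap (algebraMap B M)) (fun c hc => hv1 c hc) (fun i j h => hv2 i j h) i j hij
  obtain ⟨s, h1, h2, h3⟩ := key
  obtain ⟨s, rfl⟩ := R.surjective s
  refine ⟨s, ?_, ?_, fun l h4 h5 => ?_⟩
  · have := congrArg Subtype.val h1
    rw [AlgEquiv.smul_def, hR] at this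
    exact this
  · have := congrArg Subtype.val h2
    rw [AlgEquiv.smul_def, hR] at this
    exact this
  · have := congrArg Subtype.val (h3 l h4 h5)
    rw [AlgEquiv.smul_def, hR] at this
    exact this

/-- The product of all differences is the discriminant up to sign. -/
theorem prod_diff {W : Type} [Field W] {n : ℕ} (a : Fin n → W) :
    ∃ m : ℕ, (-1) ^ m * ∏ i, ∏ j ∈ Finset.univ.erase i, (a i - a j) =
      (Matrix.vandermonde a).det ^ 2 := by
  refine ⟨∑ i : Fin n, (Finset.Ioi i).card, ?_⟩
  have h1 : ∀ i : Fin n, (∏ j ∈ Finset.univ.erase i, (a i - a j)) =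
      (∏ j ∈ Finset.Ioi i, (a i - a j)) * ∏ j ∈ Finset.Iio i, (a i - a j) := by
    intro i
    rw [← Finset.prod_union]
    · refine Finset.prod_congr ?_ fun _ _ => rfl
      ext j
      simp only [Finset.mem_erase, Finset.mem_univ, and_true, Finset.mem_union, Finset.mem_Ioi,
        Finset.mem_Iio]
      exact ⟨fun h => (lt_or_gt_of_ne h).symm, fun h => h.elim (fun h => h.ne') fun h => h.ne⟩
    · rw [Finset.disjoint_left]
      intro j h1 h2
      rw [Finset.mem_Ioi] at h1
      rw [Finset.mem_Iio] at h2
      exact lt_asymm h1 h2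
  have h2 : ∏ i : Fin n, ∏ j ∈ Finset.Iio i, (a i - a j) =
      ∏ i : Fin n, ∏ j ∈ Finset.Ioi i, (a j - a i) := by
    rw [Finset.prod_comm' (t' := Finset.univ) (s' := fun j => Finset.Ioi j)]
    simp
  have h3 : ∏ i : Fin n, ∏ j ∈ Finset.Ioi i, (a i - a j) =
      (-1) ^ (∑ i : Fin n, (Finset.Ioi i).card) * ∏ i : Fin n, ∏ j ∈ Finset.Ioi i, (a j - a i) := by
    rw [← Finset.prod_pow_eq_pow_sum, ← Finset.prod_mul_distrib]
    refine Finset.prod_congr rfl fun i _ => ?_
    rw [← Finset.prod_const, ← Finset.prod_mul_distrib]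
    refine Finset.prod_congr rfl fun j _ => ?_
    ring
  rw [Finset.prod_congr rfl fun i _ => h1 i, Finset.prod_mul_distrib, h2, h3,
    Matrix.det_vandermonde, sq, ← mul_assoc, ← mul_assoc, ← mul_pow]
  norm_num

/-- The resultant of `∏ (X - a i)` and its derivative. -/
theorem res_prod {W : Type} [Field W] {n : ℕ} (a : Fin (n + 1) → W) :
    (∏ i, (X - C (a i))).resultant (derivative (∏ i, (X - C (a i)))) (n + 1) n =
      ∏ i, ∏ j ∈ Finset.univ.erase i, (a i - a j) := by
  have hm : (∏ i, (X - C (a i))).Monic := monic_prod_of_monic _ _ fun i _ => monic_X_sub_C _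
  have hdeg : (∏ i, (X - C (a i))).natDegree = n + 1 := by
    rw [natDegree_prod_of_monic _ _ fun i _ => monic_X_sub_C _]
    simp
  have hs : (∏ i, (X - C (a i))).Splits := Splits.prod fun i _ => Splits.X_sub_C _
  have h := resultant_eq_prod_eval (∏ i, (X - C (a i))) (derivative (∏ i, (X - C (a i)))) n
    (by
      refine (natDegree_derivative_le _).trans ?_
      rw [hdeg]; rfl) hs
  rw [hdeg, hm.leadingCoeff, one_pow, one_mul] at h
  rw [h]
  have hr : (∏ i, (X - C (a i))).roots = Finset.univ.val.map a := by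
    have := roots_multiset_prod_X_sub_C ((Finset.univ : Finset (Fin (n + 1))).val.map a)
    rw [Multiset.map_map] at this
    exact this
  rw [hr, Multiset.map_map]
  refine Finset.prod_congr rfl fun i _ => ?_
  rw [Function.comp_apply, derivative_prod_finset, eval_finset_sum, Finset.sum_eq_single i]
  · simp only [derivative_sub, derivative_X, derivative_C, sub_zero, mul_one, eval_prod, eval_sub,
      eval_X, eval_C]
  · intro j _ hj
    rw [eval_mul, eval_prod, Finset.prod_eq_zero (i := i), zero_mul]
    · exact Finset.mem_erase.2 ⟨hj.symm, Finset.mem_univ _⟩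
    · simp
  · intro h
    exact absurd (Finset.mem_univ i) h

end Run7.h781.TG
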